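import Pool.Agent.MP_f1fec5_al.Defs

namespace Pool.Agent.MP_f1fec5_al.Sig

/-- The commutative ring with generators `X_0, X_1, ...` and with the relations `g = 0` for the
integer polynomials `g` selected by `c`. -/
abbrev Pres (c : MvPolynomial ℕ ℤ → Bool) : Type :=
  MvPolynomial ℕ ℤ ⧸ Ideal.span {g | c g = true}

end Pool.Agent.MP_f1fec5_al.Sig
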